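import Pool.Agent.H.MP_28c31d_co.Low
import Pool.Agent.H.MP_28c31d_co.Up

namespace Pool.Agent.Results.MP_28c31d_co.OddDrop

open Pool.Agent.H.MP_28c31d_co

/-- Laplacian of the multigraph with edge set `E` and endpoint maps `s`, `t` -/
def lap {V E : Type} [Fintype E] [DecidableEq V] (s t : E → V) (f : V → ℤ) (v : V) : ℤ :=
  ∑ e, ((if s e = v then f v - f (t e) else 0) + (if t e = v then f v - f (s e) else 0))

/-- divisorial gonality -/
noncomputable def gon {V E : Type} [Fintype V] [Fintype E] [DecidableEq V] (s t : E → V) : ℕ :=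
  sInf {d : ℕ | ∃ D : V → ℤ, (∀ v, 0 ≤ D v) ∧ ∑ v, D v = d ∧
    ∀ v, ∃ f : V → ℤ, ∀ w, 0 ≤ D w - (if w = v then 1 else 0) - lap s t f w}

/-- the `i`-th vertex on the path of `k` edges replacing `e` -/
def node {V E : Type} (s t : E → V) (k : ℕ) (e : E) (i : ℕ) : V ⊕ E × Fin (k - 1) :=
  if i = 0 then Sum.inl (s e) else if h : i - 1 < k - 1 then Sum.inr (e, ⟨i - 1, h⟩)
  else Sum.inl (t e)

section sub
set_option linter.unusedSectionVars false
variable {V E : Type} [Fintype E] [DecidableEq V] [DecidableEq E] (s t : E → V)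
  (f : V ⊕ E × Fin 2 → ℤ)

lemma n0 (e : E) : node s t 3 e 0 = .inl (s e) := rfl
lemma n1 (e : E) : node s t 3 e 1 = .inr (e, (0 : Fin 2)) := rfl
lemma n2 (e : E) : node s t 3 e 2 = .inr (e, (1 : Fin 2)) := rfl
lemma n3 (e : E) : node s t 3 e 3 = .inl (t e) := rfl

lemma lap_sub (w : V ⊕ E × Fin 2) :
    lap (V := V ⊕ E × Fin 2) (fun p : E × Fin 3 => node s t 3 p.1 p.2)
      (fun p => node s t 3 p.1 (p.2 + 1)) f w =
    match w with
    | .inl v => ∑ e, ((if s e = v then f (.inl v) - f (.inr (e, 0)) else 0) +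
        (if t e = v then f (.inl v) - f (.inr (e, 1)) else 0))
    | .inr (e, i) => if i = 0 then 2 * f (.inr (e, 0)) - f (.inl (s e)) - f (.inr (e, 1))
        else 2 * f (.inr (e, 1)) - f (.inl (t e)) - f (.inr (e, 0)) := by
  rw [lap, Fintype.sum_prod_type]
  simp only [Fin.sum_univ_three, Fin.val_zero, Fin.val_one, Fin.val_two, zero_add,
    Nat.reduceAdd, n0, n1, n2, n3]
  rcases w with v | ⟨e, i⟩
  · simp
  · fin_cases i <;> simp [Finset.sum_add_distrib] <;> ring
end sub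

lemma upper : gon (fun p : Fin 83 × Fin 3 => node sG tG 3 p.1 p.2)
    (fun p => node sG tG 3 p.1 (p.2 + 1)) ≤ 8 := by
  refine Nat.sInf_le ⟨DD, by decide +kernel, by decide +kernel, fun v => ⟨tg v, fun w => ?_⟩⟩
  rw [lap_sub]
  rcases w with u | ⟨e, i⟩
  · exact (up v).1 u
  · fin_cases i
    · exact ((up v).2 e).1
    · exact ((up v).2 e).2

def MM : Fin 13 → Fin 13 → ℤ :=
  ![![0,2,1,0,1,0,1,0,0,0,0,0,0], ![2,0,1,9,0,0,0,0,0,0,0,0,0], ![1,1,0,0,0,0,0,9,0,0,0,0,0],
    ![0,9,0,0,1,9,0,0,0,0,0,0,0], ![1,0,0,1,0,0,0,0,9,0,0,0,0], ![0,0,0,9,0,0,1,0,0,0,0,0,0],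
    ![1,0,0,0,0,1,0,0,0,0,9,0,0], ![0,0,9,0,0,0,0,0,1,9,0,0,0], ![0,0,0,0,9,0,0,1,0,0,0,9,0],
    ![0,0,0,0,0,0,0,9,0,0,1,0,0], ![0,0,0,0,0,0,9,0,0,1,0,0,9], ![0,0,0,0,0,0,0,0,9,0,0,0,1],
    ![0,0,0,0,0,0,0,0,0,0,9,1,0]]

lemma lapG (f : Fin 13 → ℤ) (v : Fin 13) : lap sG tG f v = ∑ w, MM v w * (f v - f w) := by
  have h : ∀ v w, MM v w = ∑ e, ((if sG e = v then if tG e = w then (1 : ℤ) else 0 else 0) +
      (if tG e = v then if sG e = w then 1 else 0 else 0)) := by decide +kernel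
  simp only [h, Finset.sum_mul]
  rw [Finset.sum_comm, lap]
  refine Finset.sum_congr rfl fun e _ => ?_
  split_ifs <;> simp [add_mul, Finset.sum_add_distrib]

lemma MM_symm : ∀ a b, MM a b = MM b a := by decide +kernel

lemma cut {V : Type} [Fintype V] (M : V → V → ℤ) (hM : ∀ v w, M v w = M w v)
    (hM0 : ∀ v w, 0 ≤ M v w) (D f : V → ℤ) (h0 : ∀ v, 0 ≤ D v)
    (h : ∀ v, ∑ w, M v w * (f v - f w) ≤ D v) (a b : V) (hab : f b < f a) : M a b ≤ ∑ v, D v := by
  let g : V → ℤ := fun v => if f a ≤ f v then 1 else 0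
  have h1 : ∑ v, ∑ w, g v * g w * (M v w * (f v - f w)) = 0 := by
    have : ∑ v, ∑ w, g v * g w * (M v w * (f v - f w)) =
        -∑ v, ∑ w, g v * g w * (M v w * (f v - f w)) := by
      conv_lhs => rw [Finset.sum_comm]
      simp only [← Finset.sum_neg_distrib]
      exact Finset.sum_congr rfl fun v _ => Finset.sum_congr rfl fun w _ => by rw [hM]; ring
    omega
  have h2 : ∀ v w, 0 ≤ g v * (1 - g w) * (M v w * (f v - f w)) := fun v w => by
    simp only [g]
    split_ifs <;> simp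
    exact mul_nonneg (hM0 v w) (by omega)
  calc M a b ≤ g a * (1 - g b) * (M a b * (f a - f b)) := by
        simp only [g, le_refl, if_true, if_neg (not_le.2 hab)]
        nlinarith [hM0 a b]
    _ ≤ ∑ w, g a * (1 - g w) * (M a w * (f a - f w)) :=
        Finset.single_le_sum (fun w _ => h2 a w) (Finset.mem_univ b)
    _ ≤ ∑ v, ∑ w, g v * (1 - g w) * (M v w * (f v - f w)) :=
        Finset.single_le_sum (fun v _ => Finset.sum_nonneg fun w _ => h2 v w) (Finset.mem_univ a)
    _ = ∑ v, g v * ∑ w, M v w * (f v - f w) := by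
        rw [← add_zero (∑ v, ∑ w, g v * (1 - g w) * _), ← h1]
        simp only [← Finset.sum_add_distrib, Finset.mul_sum]
        exact Finset.sum_congr rfl fun v _ => Finset.sum_congr rfl fun w _ => by ring
    _ ≤ ∑ v, D v := Finset.sum_le_sum fun v _ => by
        have := h v; have := h0 v
        simp only [g]
        split_ifs <;> omega

lemma rigid (D e f : Fin 13 → ℤ) (h0 : ∀ v, 0 ≤ D v) (he : ∀ v, 0 ≤ e v) (hs : ∑ v, D v ≤ 8)
    (h : ∀ w, 0 ≤ D w - e w - lap sG tG f w) : Ok D e (f 0) (f 1) (f 2) (f 4) (f 6) := by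
  simp only [lapG] at h
  have K : ∀ a b, MM a b = 9 → f a = f b := fun a b hab => by
    have k := cut MM MM_symm (by decide +kernel) D f h0
      (fun v => by have := h v; have := he v; omega)
    have k1 := k a b
    have k2 := k b a
    rw [MM_symm b a] at k2
    omega
  have e1 := K 3 1 rfl; have e2 := K 5 3 rfl; have e3 := K 7 2 rfl; have e4 := K 9 7 rfl
  have e5 := K 8 4 rfl; have e6 := K 11 8 rfl; have e7 := K 10 6 rfl; have e8 := K 12 10 rfl
  simp only [sum13] at h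
  have a0 := h 0; have a1 := h 1; have a2 := h 2; have a3 := h 3; have a4 := h 4
  have a5 := h 5; have a6 := h 6; have a7 := h 7; have a8 := h 8; have a9 := h 9
  have a10 := h 10; have a11 := h 11; have a12 := h 12
  simp [MM, e8, e7, e6, e5, e4, e3, e2, e1] at a0 a1 a2 a3 a4 a5 a6 a7 a8 a9 a10 a11 a12
  exact ⟨by linarith only [a0], by linarith only [a1], by linarith only [a2],
    by linarith only [a3], by linarith only [a4], by linarith only [a5], by linarith only [a6],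
    by linarith only [a7], by linarith only [a8], by linarith only [a9], by linarith only [a10],
    by linarith only [a11], by linarith only [a12]⟩

theorem result : ∃ (V E : Type) (_ : Fintype V) (_ : Fintype E) (_ : DecidableEq V)
    (_ : DecidableEq E) (s t : E → V), Nonempty V ∧ (∀ e, s e ≠ t e) ∧
    (∀ a b, Relation.EqvGen (fun x y => ∃ e, s e = x ∧ t e = y) a b) ∧
    gon (fun p : E × Fin 3 => node s t 3 p.1 p.2) (fun p => node s t 3 p.1 (p.2 + 1)) <
      gon s t := by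
  refine ⟨Fin 13, Fin 83, inferInstance, inferInstance, inferInstance, inferInstance, sG, tG,
    ⟨0⟩, by decide +kernel, ?_, upper.trans_lt ?_⟩
  · have h1 : ∀ a : Fin 13, a ≠ 0 → ∃ e, tG e = a ∧ sG e < a := by decide +kernel
    have h2 : ∀ a, Relation.EqvGen (fun x y => ∃ e, sG e = x ∧ tG e = y) 0 a := fun a => by
      induction a using WellFoundedLT.induction with
      | ind a ih =>
        by_cases h : a = 0
        · rw [h]; exact .refl _
        · obtain ⟨e, he, hl⟩ := h1 a h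
          exact .trans _ _ _ (ih _ hl) (.rel _ _ ⟨e, rfl, he⟩)
    exact fun a b => .trans _ _ _ (.symm _ _ (h2 a)) (h2 b)
  · by_contra hc
    obtain ⟨D, h0, hs, h⟩ := Nat.sInf_mem (s := {d : ℕ | ∃ D : Fin 13 → ℤ, (∀ v, 0 ≤ D v) ∧
      ∑ v, D v = d ∧ ∀ v, ∃ f : Fin 13 → ℤ, ∀ w,
        0 ≤ D w - (if w = v then 1 else 0) - lap sG tG f w})
      ⟨13, fun _ => 1, by simp, by simp, fun v => ⟨0, fun w => by
        simp only [lap]; split_ifs <;> simp⟩⟩
    have h8 : ∑ v, D v ≤ 8 := by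
      rw [hs]
      exact Int.ofNat_le.2 (not_lt.1 hc)
    refine core' D h8 fun v => ?_
    obtain ⟨f, hf⟩ := h v
    exact ⟨_, _, _, _, _, rigid D (dl v) f h0 (fun u => by unfold dl; split_ifs <;> simp) h8 hf⟩

end Pool.Agent.Results.MP_28c31d_co.OddDrop
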